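import Mathlib
import Pool.Agent.Y856.PD.D

set_option autoImplicit false

/-!
# Every predecessor set of the `3x+1` map has a natural density

For every positive integer `a` the set of the positive integers which iterate to `a` has a natural density
`δ(a)`; it is the same, `δ(a) / q`, in every residue class modulo every `q`; `δ(a) ≥ c / a` with an absolute
constant `c > 0` if `3` does not divide `a`, and `δ(a) = 0` otherwise; the dyadic blocks satisfy
`|P_T^n(a)| / 2^n → a δ(a)`; and `δ(a)` is the sum of the densities of the preimages of `a`, unless `a` lies on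
a cycle.  The existence of the densities holds for all sets which are invariant from some point on.

The equidistribution in classes, the harmonic relation and the limit theorem for invariant sets are those of
`Pool.Agent.H499R2.ND`, the uniform lower bound is that of `Pool.Agent.W38.UPD` (starting files); what is
done in `Pool.Agent.Y856.PD` is the case of sets which are invariant only above a threshold.
-/

namespace Pool.Agent.Results.MP_76ba2b_nt.NaturalDensity

open Filter Topology

/-- the `3x+1` function `T` -/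
def T (n : ℕ) : ℕ := if n % 2 = 0 then n / 2 else (3 * n + 1) / 2

/-- `π_a(x)`, the number of positive integers `n ≤ x` which iterate to `a` -/
noncomputable def piCount (a : ℕ) (x : ℝ) : ℕ :=
  {n : ℕ | 0 < n ∧ (n : ℝ) ≤ x ∧ ∃ k : ℕ, T^[k] n = a}.ncard

/-- `P_T^n(a)`, the set of integers `m` with `2^n a ≤ m < 2^(n+1) a` which iterate to `a` -/
def P (n a : ℕ) : Set ℕ := {m : ℕ | 2 ^ n * a ≤ m ∧ m < 2 ^ (n + 1) * a ∧ ∃ j : ℕ, T^[j] m = a}

/-- the number of the positive integers `n ≤ x` with `n ≡ r (mod q)` which belong to `S` -/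
noncomputable def classCount (S : Set ℕ) (q r : ℕ) (x : ℝ) : ℕ :=
  {n : ℕ | 0 < n ∧ (n : ℝ) ≤ x ∧ n % q = r % q ∧ n ∈ S}.ncard

open Pool.Agent.Y856.PD

theorem class_limit {S : Set ℕ} {m : ℕ} (hS : Ev m (fun n => n ∈ S)) {l : ℝ}
    (hl : Tendsto (fun N : ℕ => Pool.Agent.H499R2.ND.cnt (fun n => n ∈ S) N / N) atTop (𝓝 l))
    {q : ℕ} (hq : 0 < q) (r : ℕ) :
    Tendsto (fun x : ℝ => (classCount S q r x : ℝ) / x) atTop (𝓝 (l / q)) :=
  real_limit (hS.classes hl hq r)

/-- **Natural density of the predecessor sets of the `3x+1` map.**  There are `δ : ℕ → ℝ` and `c > 0` with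
the following properties, for all positive integers `a`.

1. `π_a(x) / x` tends to `δ(a)`.
2. The predecessors of `a` have density `δ(a) / q` in every residue class modulo `q`, for all `q ≥ 1`.
3. If `3` does not divide `a` then `δ(a) ≥ c / a`, and the lower limit of `π_a(x) / x` is positive (Q1).
4. If `3` divides `a` then `δ(a) = 0`.
5. `|P_T^n(a)| / 2^n` tends to `a δ(a)`.
6. If `a` is not periodic then `δ(a) = δ(2a) + δ((2a-1)/3)`, the second term being present only for
`a ≡ 2 (mod 3)`.
7. More generally every set `S` with `n ∈ S ↔ T n ∈ S` for all large `n` has a natural density, and is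
equidistributed in the residue classes. -/
theorem result : ∃ (δ : ℕ → ℝ) (c : ℝ), 0 < c ∧
    (∀ a : ℕ, 0 < a → Tendsto (fun x : ℝ => (piCount a x : ℝ) / x) atTop (𝓝 (δ a))) ∧
    (∀ a : ℕ, 0 < a → ∀ q r : ℕ, 0 < q →
      Tendsto (fun x : ℝ => (classCount {n | ∃ k : ℕ, T^[k] n = a} q r x : ℝ) / x) atTop
        (𝓝 (δ a / q))) ∧
    (∀ a : ℕ, 0 < a → a % 3 ≠ 0 →
      c / a ≤ δ a ∧ 0 < liminf (fun x : ℝ => (piCount a x : ℝ) / x) atTop) ∧
    (∀ a : ℕ, 0 < a → a % 3 = 0 → δ a = 0) ∧
    (∀ a : ℕ, 0 < a → Tendsto (fun n : ℕ => ((P n a).ncard : ℝ) / 2 ^ n) atTop (𝓝 (a * δ a))) ∧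
    (∀ a : ℕ, 0 < a → (∀ k, 0 < k → T^[k] a ≠ a) →
      δ a = δ (2 * a) + if a % 3 = 2 then δ ((2 * a - 1) / 3) else 0) ∧
    (∀ (S : Set ℕ) (m : ℕ), (∀ n, m < n → (n ∈ S ↔ T n ∈ S)) →
      ∃ d : ℝ, ∀ q r : ℕ, 0 < q →
        Tendsto (fun x : ℝ => (classCount S q r x : ℝ) / x) atTop (𝓝 (d / q))) := by
  obtain ⟨c, hc, hlow⟩ := dens_lower
  have hpi : ∀ a : ℕ, 0 < a → Tendsto (fun x : ℝ => (piCount a x : ℝ) / x) atTop (𝓝 (dens a)) :=
    fun a _ => real_limit (dens_spec a)
  refine ⟨dens, c, hc, hpi, ?_, ?_, ?_, ?_, ?_, ?_⟩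
  · intro a _ q r hq
    exact class_limit (S := {n | ∃ k : ℕ, T^[k] n = a}) (Pr_ev a) (dens_spec a) hq r
  · intro a ha ha3
    have h1 := hlow a ha (by omega)
    refine ⟨h1, ?_⟩
    rw [(hpi a ha).liminf_eq]
    have haR : (0 : ℝ) < a := by exact_mod_cast ha
    exact lt_of_lt_of_le (by positivity) h1
  · intro a ha ha3
    exact dens_three ha ha3
  · intro a ha
    exact block_limit ha
  · intro a ha hper
    exact dens_rec ha hper
  · intro S m hS
    have hE : Ev m (fun n => n ∈ S) := hS
    obtain ⟨l, hl⟩ := hE.density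
    exact ⟨l, fun q r hq => class_limit hE hl hq r⟩

end Pool.Agent.Results.MP_76ba2b_nt.NaturalDensity
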