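import Mathlib
import Pool.Agent.Y964.LW.G1

set_option autoImplicit false

/-!
Predecessor sets of the `3x+1` map along sparse multiplicative sets and multiplicative functions: the
relative frequency of the integers which iterate to `a` is the natural density `δ(a)`, which is at least
`c / a` if `3` does not divide `a`.
-/

namespace Pool.Agent.Results.MP_76ba2b_nt.PredecessorsInSemigroups

open Filter Topology Finset

/-- the `3x+1` function -/
def T (n : ℕ) : ℕ := if n % 2 = 0 then n / 2 else (3 * n + 1) / 2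

/-- `n` iterates to `a` -/
def To (a n : ℕ) : Prop := ∃ k : ℕ, T^[k] n = a

/-- the trajectories of `n` and `a` have a common term -/
def Meets (a n : ℕ) : Prop := ∃ i j : ℕ, T^[i] n = T^[j] a

/-- the trajectory of `a` is bounded -/
def Bounded (a : ℕ) : Prop := ∃ R : ℕ, ∀ k : ℕ, T^[k] a ≤ R

/-- `π_a(x)`, the number of positive integers `n ≤ x` which iterate to `a` -/
noncomputable def piCount (a : ℕ) (x : ℝ) : ℕ := {n : ℕ | 0 < n ∧ (n : ℝ) ≤ x ∧ To a n}.ncard

/-- the positive integers with the property `P` have the natural density `δ` -/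
def HasDensity (P : ℕ → Prop) (δ : ℝ) : Prop :=
  Tendsto (fun N : ℕ => ({n : ℕ | 1 ≤ n ∧ n ≤ N ∧ P n}.ncard : ℝ) / N) atTop (𝓝 δ)

/-- `∑_{p ≤ x} h p ≥ c x / log x` for all `x ≥ x₀` (sum over primes). -/
def PrimeMean (c : ℝ) (x₀ : ℕ) (h : ℕ → ℝ) : Prop :=
  ∀ x : ℕ, x₀ ≤ x → c * (x / Real.log x) ≤ ∑ p ∈ (Icc 1 x).filter Nat.Prime, h p

open scoped Classical in
/-- THE RELATIVE FREQUENCY of the property `P` is `l` for all bounded multiplicative functions over all
multiplicative majorants with many primes: for all `c > 0`, `x₀`, `ε > 0`, `Q ≥ 1` and `r` prime to `Q`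
there is `N₀` such that for all `N ≥ N₀`, for all multiplicative `h` with values in `[0, 1]` and
`∑_{p ≤ x} h p ≥ c x / log x` for `x ≥ x₀`, and all multiplicative `g` with `|g| ≤ h`, the sum of `g n`
over the `n ≤ N` with `n ≡ r` modulo `Q` and the property `P` is `l` times the sum over all `n ≤ N` with
`n ≡ r` modulo `Q`, up to `ε ∑_{n ≤ N} h n`. -/
def Relative (P : ℕ → Prop) (l : ℝ) : Prop := ∀ (c : ℝ) (x₀ : ℕ) (ε : ℝ) (Q r : ℕ), 0 < c → 0 < ε →
  1 ≤ Q → r.Coprime Q → ∃ N₀ : ℕ, ∀ N : ℕ, N₀ ≤ N → ∀ h : ArithmeticFunction ℝ, h.IsMultiplicative →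
    (∀ n, 0 ≤ h n ∧ h n ≤ 1) → PrimeMean c x₀ h →
    ∀ g : ArithmeticFunction ℂ, g.IsMultiplicative → (∀ n, ‖g n‖ ≤ h n) →
    ‖∑ n ∈ (Icc 1 N).filter (fun n => n % Q = r % Q ∧ P n), g n -
      l * ∑ n ∈ (Icc 1 N).filter (fun n => n % Q = r % Q), g n‖ ≤ ε * ∑ n ∈ Icc 1 N, h n

/-- `E` contains at least `c x / log x` primes `p ≤ x`, for all `x ≥ x₀`. -/
def ManyPrimes (c : ℝ) (x₀ : ℕ) (E : Set ℕ) : Prop :=
  ∀ x : ℕ, x₀ ≤ x → c * (x / Real.log x) ≤ {p : ℕ | p.Prime ∧ p ≤ x ∧ p ∈ E}.ncard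

/-- `E` is a multiplicative set of positive integers: it contains `1`, and the product of coprime
integers is in `E` if and only if both factors are. -/
def MultSet (E : Set ℕ) : Prop :=
  0 ∉ E ∧ 1 ∈ E ∧ ∀ m n : ℕ, m.Coprime n → (m * n ∈ E ↔ m ∈ E ∧ n ∈ E)

/-- The positive sums of two squares. -/
def TwoSquares : Set ℕ := {n | 1 ≤ n ∧ ∃ x y : ℕ, n = x ^ 2 + y ^ 2}

/-- The positive integers all of whose prime factors are congruent modulo `q` to elements of `A`. -/
def PrimesIn (q : ℕ) (A : Set ℕ) : Set ℕ := {n | 1 ≤ n ∧ ∀ p : ℕ, p.Prime → p ∣ n → ∃ a ∈ A, p % q = a % q}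

/-- The relative density of the members with the property `P` in the set `E` is `l`. -/
def RelDensity (E : Set ℕ) (P : ℕ → Prop) (l : ℝ) : Prop :=
  Tendsto (fun N : ℕ => ({n : ℕ | n ≤ N ∧ n ∈ E ∧ P n}.ncard : ℝ) / {n : ℕ | n ≤ N ∧ n ∈ E}.ncard) atTop (𝓝 l)

open Pool.Agent.Y964.LW (RL Rel RL_full)

theorem rel_of {P : ℕ → Prop} {l : ℝ} (h : RL P l) : Relative P l := RL_full h

theorem dens_of {P : ℕ → Prop} {d : ℝ} (h : Pool.Agent.H499R2.ND.Dn P d) : HasDensity P d := h

/-- PREDECESSOR SETS OF THE `3x+1` MAP IN SPARSE MULTIPLICATIVE SETS. There are `δ, μ : ℕ → ℝ` and `c > 0` such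
that for all positive integers `a`:
(1) `π_a(x) / x → δ(a)`; if `3` does not divide `a` then `δ(a) ≥ c / a` and the lower limit of `π_a(x) / x`
is positive (Q1); otherwise `δ(a) = 0`.
(2) If the trajectory of `a` is bounded, then the integers which iterate to `a` have the frequency `δ(a)` in
the sums of all bounded multiplicative functions over the integers, also in all reduced residue classes, with
errors relative to the sum of a multiplicative majorant with many primes (`Relative`).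
(3) For EVERY `a` the integers whose trajectories meet the one of `a` have the natural density `μ(a) ≥ δ(a)`
and the frequency `μ(a)` in the sense of (2).
(4) More generally let `S` be a set of positive integers such that, for some `R`, `n ∈ S ↔ T n ∈ S` for every
`n` whose trajectory contains a term larger than `R`. Then `S` has a natural density `d` and the frequency
`d` in the sense of (2).
(5) In every multiplicative set `E` with at least `c' x / log x` primes up to `x`: if the trajectory of `a` is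
bounded, then the members of `E` which iterate to `a` have relative density `δ(a)` (at least `c / a` if `3`
does not divide `a`, `0` otherwise); for every `a` those whose trajectories meet the one of `a` have the
relative density `μ(a)`; the sets `S` of (4) have the relative density `d`.
(6) The sums of two squares, and the integers composed of primes in given residue classes modulo `q`
(at least one of them prime to `q`), are such sets `E`. -/
theorem result : ∃ (δ μ : ℕ → ℝ) (c : ℝ), 0 < c ∧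
    (∀ a : ℕ, 0 < a → Tendsto (fun x : ℝ => (piCount a x : ℝ) / x) atTop (𝓝 (δ a)) ∧
      (a % 3 ≠ 0 → c / a ≤ δ a ∧ 0 < liminf (fun x : ℝ => (piCount a x : ℝ) / x) atTop) ∧
      (a % 3 = 0 → δ a = 0)) ∧
    (∀ a : ℕ, 0 < a → Bounded a → Relative (To a) (δ a)) ∧
    (∀ a : ℕ, 0 < a → HasDensity (Meets a) (μ a) ∧ δ a ≤ μ a ∧ Relative (Meets a) (μ a)) ∧
    (∀ (S : Set ℕ) (R : ℕ), (∀ n : ℕ, 1 ≤ n → (∃ i, R < T^[i] n) → (n ∈ S ↔ T n ∈ S)) →
      ∃ d : ℝ, HasDensity (· ∈ S) d ∧ Relative (· ∈ S) d ∧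
        ∀ (c' : ℝ) (x₀ : ℕ) (E : Set ℕ), 0 < c' → MultSet E → ManyPrimes c' x₀ E → RelDensity E (· ∈ S) d) ∧
    (∀ (c' : ℝ) (x₀ : ℕ) (E : Set ℕ), 0 < c' → MultSet E → ManyPrimes c' x₀ E → ∀ a : ℕ, 0 < a →
      (Bounded a → RelDensity E (To a) (δ a)) ∧ RelDensity E (Meets a) (μ a)) ∧
    (MultSet TwoSquares ∧ ∃ c : ℝ, 0 < c ∧ ∃ x₀ : ℕ, ManyPrimes c x₀ TwoSquares) ∧
    (∀ (q a : ℕ) (A : Set ℕ), 1 ≤ q → a ∈ A → a.Coprime q → MultSet (PrimesIn q A) ∧
      ∃ c : ℝ, 0 < c ∧ ∃ x₀ : ℕ, ManyPrimes c x₀ (PrimesIn q A)) := by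
  obtain ⟨c, hc, hlow⟩ := Pool.Agent.Y856.PD.dens_lower
  have hpi : ∀ a : ℕ, Tendsto (fun x : ℝ => (piCount a x : ℝ) / x) atTop (𝓝 (Pool.Agent.Y856.PD.dens a)) :=
    fun a => Pool.Agent.Y856.PD.real_limit (Pool.Agent.Y856.PD.dens_spec a)
  refine ⟨Pool.Agent.Y856.PD.dens, Pool.Agent.Y964.LW.mdens, c, hc, fun a ha => ⟨hpi a, fun ha3 => ?_, fun ha3 => ?_⟩,
    fun a ha hb => ?_, fun a ha => ⟨dens_of (Pool.Agent.Y964.LW.mdens_spec a), Pool.Agent.Y964.LW.dens_le_mdens a,
      rel_of (Pool.Agent.Y964.LW.mg_RL a)⟩, fun S R hS => ?_, fun c' x₀ E hc' hE hp a ha => ⟨fun hb => ?_, ?_⟩, ?_, ?_⟩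
  · have h1 := hlow a ha (by omega)
    refine ⟨h1, ?_⟩
    rw [(hpi a).liminf_eq]
    have haR : (0 : ℝ) < a := by exact_mod_cast ha
    exact lt_of_lt_of_le (by positivity) h1
  · exact Pool.Agent.Y856.PD.dens_three ha ha3
  · obtain ⟨R, hR⟩ := hb
    exact rel_of (Pool.Agent.Y964.LW.pr_RL hR)
  · have hA : Pool.Agent.Y964.LW.AbR R (fun n => n ∈ S) := hS
    obtain ⟨d, hd⟩ := hA.exists
    exact ⟨d, dens_of hd, rel_of (hA.RL hd), fun c' x₀ E hc' hE hp =>
      Pool.Agent.Y964.LW.Rel.lim (RL_full (hA.RL hd)) c' x₀ E hc' hE hp⟩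
  · obtain ⟨R, hR⟩ := hb
    exact Pool.Agent.Y964.LW.Rel.lim (RL_full (Pool.Agent.Y964.LW.pr_RL hR)) c' x₀ E hc' hE hp
  · exact Pool.Agent.Y964.LW.Rel.lim (RL_full (Pool.Agent.Y964.LW.mg_RL a)) c' x₀ E hc' hE hp
  · exact Pool.Agent.Y964.LW.two_sq (fun n => Iff.rfl)
  · intro q a A hq haA ha
    exact Pool.Agent.Y964.LW.primes_in hq (fun n => Iff.rfl) haA ha

end Pool.Agent.Results.MP_76ba2b_nt.PredecessorsInSemigroups
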